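import Mathlib
import Pool.Agent.Helper331.WTight3
import Pool.Agent.Helper331.WProf
import Pool.Agent.Helper331.WMfd
import Pool.Agent.Helper331.WDisc
import Pool.Agent.Helper331.WHull

set_option autoImplicit false
open scoped Manifold ContDiff

namespace Pool.Agent.Results.MP_711db1_gt.WhiteCounterexample

section definitions

variable {V H M E : Type} [NormedAddCommGroup V] [NormedSpace ℝ V] [TopologicalSpace H]
  (I : ModelWithCorners ℝ V H) [TopologicalSpace M] [ChartedSpace H M]
  [NormedAddCommGroup E] [InnerProductSpace ℝ E]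

/-- `f` is a smooth immersion of the manifold with boundary `M` (smooth up to the boundary). -/
def SmoothImmersion (f : M → E) : Prop :=
  ContMDiff I 𝓘(ℝ, E) ∞ f ∧ ∀ x : M, Function.Injective (mfderiv I 𝓘(ℝ, E) f x)

/-- There is a continuous nowhere vanishing field of normal vectors along `f`. For an immersed
surface in Euclidean three-space this says that the surface is orientable. -/
def HasNormalField (f : M → E) : Prop :=
  ∃ ν : M → E, Continuous ν ∧ ∀ x : M, ν x ≠ 0 ∧
    ∀ v : TangentSpace I x, inner ℝ (ν x) (mfderiv I 𝓘(ℝ, E) f x v : E) = 0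

omit [ChartedSpace H M] in
/-- 0-tightness: the preimage of every open and of every closed half-space is connected
(possibly empty). -/
def ZeroTight (f : M → E) : Prop :=
  ∀ (u : E) (c : ℝ), u ≠ 0 →
    IsPreconnected (f ⁻¹' {y | c < inner ℝ u y}) ∧ IsPreconnected (f ⁻¹' {y | c ≤ inner ℝ u y})

/-- Tightness, in the equivalent form of the problem file: `f` is 0-tight, and the image of `M`
and the image of the boundary of `M` have the same convex hull. -/
def Tight (f : M → E) : Prop :=
  ZeroTight f ∧ convexHull ℝ (Set.range f) = convexHull ℝ (f '' I.boundary M)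

omit [TopologicalSpace M] [ChartedSpace H M] in
/-- The image of `f` lies in no affine hyperplane. -/
def Substantial (f : M → E) : Prop :=
  ∀ (u : E) (c : ℝ), (∀ x, inner ℝ u (f x) = c) → u = 0

variable (M) in
/-- `M` is a compact connected smooth manifold with boundary, whose boundary is nonempty and
connected: there is exactly one boundary component. -/
def CompactWithConnectedBoundary : Prop :=
  IsManifold I ∞ M ∧ CompactSpace M ∧ ConnectedSpace M ∧ T2Space M ∧ IsConnected (I.boundary M)

/-- `f` is a tight and substantial smooth immersion, and it is moreover injective and has a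
continuous nowhere vanishing normal field. -/
def TightSubstantialImmersion (f : M → E) : Prop :=
  SmoothImmersion I f ∧ Tight I f ∧ Substantial f ∧ HasNormalField I f ∧ Function.Injective f

end definitions

open Pool.Agent.Helper331.White in
/-- There are a compact connected smooth surface `M` with exactly one boundary component, which is
orientable and not a disc, and a smooth immersion (even an embedding) of `M` into Euclidean
three-space which is tight and whose image lies in no plane. -/
theorem result : ∃ (M : Type) (_ : TopologicalSpace M)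
    (_ : ChartedSpace (EuclideanHalfSpace 2) M) (f : M → EuclideanSpace ℝ (Fin 3)),
    CompactWithConnectedBoundary M (𝓡∂ 2) ∧
    ¬ Nonempty (M ≃ₜ Metric.closedBall (0 : EuclideanSpace ℝ (Fin 2)) 1) ∧
    TightSubstantialImmersion (𝓡∂ 2) f := by
  obtain ⟨P⟩ := exists_prof
  obtain ⟨cs, hman, hsm, hinj, hDF, hbd⟩ := exists_mfd_boundary (F := P.F) (T := P.T)
    P.F_smooth P.T_smooth
    (fun p hp hT => by rw [(P.F_hasFDerivAt p).fderiv]; exact P.DF_ne ⟨hp, hT⟩)
    (fun p hp hT => by
      rw [(P.F_hasFDerivAt p).fderiv, (P.T_hasFDerivAt p).fderiv]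
      exact P.DF_DT_indep ⟨hp, hT⟩) (M := P.M) rfl
  have hval : Subtype.val '' ((𝓡∂ 2).boundary P.M) = P.C := by
    rw [hbd]
    ext p
    constructor
    · rintro ⟨q, hq, rfl⟩
      exact ⟨q.2.1, hq⟩
    · intro hp
      exact ⟨⟨p, P.C_sub_M hp⟩, hp.2, rfl⟩
  have hpre : ∀ S : Set (EuclideanSpace ℝ (Fin 3)), IsPreconnected (P.M ∩ S) →
      IsPreconnected ((Subtype.val : P.M → EuclideanSpace ℝ (Fin 3)) ⁻¹' S) := by
    intro S hS
    have h1 : Subtype.val '' ((Subtype.val : P.M → EuclideanSpace ℝ (Fin 3)) ⁻¹' S) = P.M ∩ S := by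
      rw [Subtype.image_preimage_coe]
    rw [← Topology.IsInducing.subtypeVal.isPreconnected_image, h1]
    exact hS
  refine ⟨P.M, inferInstance, cs, Subtype.val, ⟨hman, isCompact_iff_compactSpace.1 P.M_compact,
    isConnected_iff_connectedSpace.1 P.M_connected, inferInstance, ?_⟩, P.not_disc P.M_connected,
    ⟨hsm, hinj⟩, ⟨?_, ?_⟩, ?_, ?_, Subtype.val_injective⟩
  · have h1 : IsConnected (Subtype.val '' ((𝓡∂ 2).boundary P.M)) := by
      rw [hval]; exact P.C_connected
    refine ⟨Set.Nonempty.of_image h1.nonempty, ?_⟩
    exact Topology.IsInducing.subtypeVal.isPreconnected_image.1 h1.isPreconnected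
  · intro u c _
    have h1 : ∀ y : EuclideanSpace ℝ (Fin 3), inner ℝ u y = (innerSL ℝ u) y := fun y => rfl
    constructor
    · exact hpre _ (P.tight_open (innerSL ℝ u) c)
    · exact hpre _ (P.tight_closed (innerSL ℝ u) c)
  · rw [Subtype.range_val, hval]
    exact P.hull_eq
  · intro u c h
    have h1 := P.not_planar (innerSL ℝ u) c (fun p hp => h ⟨p, hp⟩)
    have h2 : innerSL ℝ u u = 0 := by rw [h1]; rfl
    have h3 : inner ℝ u u = (0:ℝ) := h2
    exact inner_self_eq_zero.1 h3
  · refine ⟨fun x => !₂[P.Fx x, P.Fy x, P.Fz x], ?_, fun x => ⟨?_, fun v => ?_⟩⟩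
    · have h1 := P.A1_cont
      have h2 := P.s_cont
      have h3 := P.T_cont
      have h4 : Continuous P.s1 := continuous_iff_continuousAt.2 fun z => (P.hs2 z).continuousAt
      unfold Prof.Fx Prof.Fy Prof.Fz
      fun_prop
    · intro h0
      apply P.DF_ne x.2
      have e0 := congrArg (fun w : EuclideanSpace ℝ (Fin 3) => w 0) h0
      have e1 := congrArg (fun w : EuclideanSpace ℝ (Fin 3) => w 1) h0
      have e2 := congrArg (fun w : EuclideanSpace ℝ (Fin 3) => w 2) h0
      simp at e0 e1 e2
      ext w
      rw [P.DF_apply, e0, e1, e2]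
      simp
    · have h := hDF x v
      rw [(P.F_hasFDerivAt x.1).fderiv, P.DF_apply] at h
      rw [PiLp.inner_apply]
      simp only [Fin.sum_univ_three, RCLike.inner_apply, conj_trivial]
      simp
      linarith

end Pool.Agent.Results.MP_711db1_gt.WhiteCounterexample
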